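import Pool.Agent.P8H47.EC2.Stm

/-! # Project EC2, package AP: approximation for finitely many valuation rings -/

set_option autoImplicit false

namespace Pool.Agent.P8H55.EC2

open Pool.Agent.P8H47.EC2

section E

/-- at most one prime is bad -/
lemma bad {κ : Type*} [Field κ] (h : κ) (n n' : ℕ) (hn : n.Prime) (hn' : n'.Prime) (hne : n ≠ n')
    (e : ∑ i ∈ Finset.range n, h ^ i = 0) (e' : ∑ i ∈ Finset.range n', h ^ i = 0) : False := by
  have hc : Nat.Coprime n n' := (Nat.coprime_primes hn hn').2 hne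
  have h1 : h ^ n = 1 := by
    have := geom_sum_mul h n
    rw [e, zero_mul] at this
    exact (sub_eq_zero.1 this.symm)
  have h2 : h ^ n' = 1 := by
    have := geom_sum_mul h n'
    rw [e', zero_mul] at this
    exact (sub_eq_zero.1 this.symm)
  have h3 : h = 1 := by
    have := pow_gcd_eq_one.2 ⟨h1, h2⟩
    rwa [hc, pow_one] at this
  subst h3
  simp only [one_pow, Finset.sum_const, Finset.card_range, nsmul_eq_mul, mul_one] at e e'
  obtain ⟨a, b, hab⟩ := Nat.isCoprime_iff_coprime.2 hc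
  have h4 := congrArg (Int.cast : ℤ → κ) hab
  push_cast at h4
  rw [e, e'] at h4
  simp at h4

variable {F : Type} [Field F]

lemma inv_mem_of_isUnit {O : ValuationSubring F} {x : O} (hx : IsUnit x) :
    (x : F) ≠ 0 ∧ (x : F)⁻¹ ∈ O := by
  obtain ⟨y, hy⟩ := hx.exists_right_inv
  have h1 : (x : F) * y = 1 := by exact_mod_cast congrArg (Subtype.val : O → F) hy
  refine ⟨left_ne_zero_of_mul_eq_one h1, ?_⟩
  rw [inv_eq_of_mul_eq_one_right h1]
  exact y.2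

lemma unitP (O : ValuationSubring F) (h : F) (hh : h ∈ O) : ∃ N : ℕ, ∀ n, N ≤ n → n.Prime →
    (∑ i ∈ Finset.range n, h ^ i ≠ 0 ∧ (∑ i ∈ Finset.range n, h ^ i)⁻¹ ∈ O) := by
  have key : ∀ n, IsLocalRing.residue O (∑ i ∈ Finset.range n, (⟨h, hh⟩ : O) ^ i) ≠ 0 →
      (∑ i ∈ Finset.range n, h ^ i ≠ 0 ∧ (∑ i ∈ Finset.range n, h ^ i)⁻¹ ∈ O) := fun n hn => by
    have h1 := inv_mem_of_isUnit ((IsLocalRing.residue_ne_zero_iff_isUnit _).1 hn)
    have h2 : ((∑ i ∈ Finset.range n, (⟨h, hh⟩ : O) ^ i : O) : F) = ∑ i ∈ Finset.range n, h ^ i := by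
      push_cast
      rfl
    rwa [h2] at h1
  by_cases hb : ∃ n0 : ℕ, n0.Prime ∧
      IsLocalRing.residue O (∑ i ∈ Finset.range n0, (⟨h, hh⟩ : O) ^ i) = 0
  · obtain ⟨n0, hn0, e0⟩ := hb
    refine ⟨n0 + 1, fun n hn hp => key n fun e => ?_⟩
    rw [map_sum] at e e0
    simp only [map_pow] at e e0
    exact bad _ n n0 hp hn0 (by omega) e e0
  · push Not at hb
    exact ⟨0, fun n _ hp => key n (hb n hp)⟩

lemma refl (g : F) (hg : g ≠ 0) (k : ℕ) :
    ∑ i ∈ Finset.range (k + 1), g ^ i = g ^ k * ∑ i ∈ Finset.range (k + 1), g⁻¹ ^ i := by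
  rw [← Finset.sum_range_reflect, Finset.mul_sum]
  refine Finset.sum_congr rfl fun i hi => ?_
  have hi' : i ≤ k := by simpa [Nat.lt_succ_iff] using hi
  rw [show k + 1 - 1 - i = k - i by omega, inv_pow, ← div_eq_mul_inv, pow_sub₀ g hg hi', div_eq_mul_inv]

lemma exists_w (g : F) (hg : g ≠ 0) {ι : Type} (O : ι → ValuationSubring F) (s : Finset ι) :
    ∃ w : F, ∀ j ∈ s, w ∈ O j ∧ (g ∈ O j → ∃ b ∈ O j, w - 1 = g * b) ∧
      (g⁻¹ ∈ O j → ∃ b ∈ O j, w = g⁻¹ * b) := by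
  have h1 : ∀ j, ∃ N : ℕ, ∀ n, N ≤ n → n.Prime →
      (g ∈ O j → ∑ i ∈ Finset.range n, g ^ i ≠ 0 ∧ (∑ i ∈ Finset.range n, g ^ i)⁻¹ ∈ O j) ∧
      (g⁻¹ ∈ O j → ∑ i ∈ Finset.range n, g⁻¹ ^ i ≠ 0 ∧ (∑ i ∈ Finset.range n, g⁻¹ ^ i)⁻¹ ∈ O j) := by
    intro j
    have ha : ∃ N : ℕ, ∀ n, N ≤ n → n.Prime →
      (g ∈ O j → ∑ i ∈ Finset.range n, g ^ i ≠ 0 ∧ (∑ i ∈ Finset.range n, g ^ i)⁻¹ ∈ O j) := by
      by_cases h : g ∈ O j
      · obtain ⟨N, hN⟩ := unitP (O j) g h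
        exact ⟨N, fun n hn hp _ => hN n hn hp⟩
      · exact ⟨0, fun n _ _ h' => absurd h' h⟩
    have hb : ∃ N : ℕ, ∀ n, N ≤ n → n.Prime →
      (g⁻¹ ∈ O j → ∑ i ∈ Finset.range n, g⁻¹ ^ i ≠ 0 ∧ (∑ i ∈ Finset.range n, g⁻¹ ^ i)⁻¹ ∈ O j) := by
      by_cases h : g⁻¹ ∈ O j
      · obtain ⟨N, hN⟩ := unitP (O j) g⁻¹ h
        exact ⟨N, fun n hn hp _ => hN n hn hp⟩
      · exact ⟨0, fun n _ _ h' => absurd h' h⟩
    obtain ⟨N, hN⟩ := ha
    obtain ⟨M, hM⟩ := hb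
    exact ⟨max N M, fun n hn hp => ⟨hN n (le_trans (le_max_left _ _) hn) hp,
      hM n (le_trans (le_max_right _ _) hn) hp⟩⟩
  choose N hN using h1
  obtain ⟨n, hn, hp⟩ := Nat.exists_infinite_primes (s.sup N)
  obtain ⟨k, rfl⟩ : ∃ k, n = k + 2 := ⟨n - 2, by have := hp.two_le; omega⟩
  refine ⟨(∑ i ∈ Finset.range (k + 2), g ^ i)⁻¹, fun j hj => ?_⟩
  obtain ⟨hA, hB⟩ := hN j (k + 2) (le_trans (Finset.le_sup hj) hn) hp
  have hinv : g⁻¹ ∈ O j → ∃ b ∈ O j, (∑ i ∈ Finset.range (k + 2), g ^ i)⁻¹ = g⁻¹ * b := fun h => by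
    obtain ⟨h3, h4⟩ := hB h
    refine ⟨g⁻¹ ^ k * (∑ i ∈ Finset.range (k + 2), g⁻¹ ^ i)⁻¹, (O j).mul_mem _ _ (pow_mem h k) h4, ?_⟩
    rw [refl g hg (k + 1), mul_inv, ← inv_pow, pow_succ]
    ring
  refine ⟨?_, fun h => ?_, hinv⟩
  · rcases (O j).mem_or_inv_mem g with h | h
    · exact (hA h).2
    · obtain ⟨b, hb, e⟩ := hinv h
      rw [e]
      exact (O j).mul_mem _ _ h hb
  · obtain ⟨h3, h4⟩ := hA h
    refine ⟨-((∑ i ∈ Finset.range (k + 2), g ^ i)⁻¹ * ∑ i ∈ Finset.range (k + 1), g ^ i),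
      (O j).neg_mem _ ((O j).mul_mem _ _ h4 (sum_mem fun i _ => pow_mem h i)), ?_⟩
    have h5 : ∑ i ∈ Finset.range (k + 2), g ^ i = g * (∑ i ∈ Finset.range (k + 1), g ^ i) + 1 :=
      geom_sum_succ
    have h6 : (∑ i ∈ Finset.range (k + 2), g ^ i)⁻¹ * (∑ i ∈ Finset.range (k + 2), g ^ i) = 1 :=
      inv_mul_cancel₀ h3
    set w := (∑ i ∈ Finset.range (k + 2), g ^ i)⁻¹
    rw [h5] at h6
    linear_combination h6

end E

section

variable {F : Type} [Field F]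

lemma UU_symm {O O' : ValuationSubring F} {x : Fˣ} (h : x ∈ UU O O') : x ∈ UU O' O := by
  obtain ⟨⟨a, ha, b, hb, e⟩, ⟨a', ha', b', hb', e'⟩⟩ := h
  exact ⟨⟨b, hb, a, ha, by rw [e, mul_comm]⟩, ⟨b', hb', a', ha', by rw [e', mul_comm]⟩⟩

lemma exists_g {O O' : ValuationSubring F} {y y' : Fˣ} (hy : y ∈ UU O O') (hy' : y' ∈ UU O O') :
    ∃ g : F, g ≠ 0 ∧ (∃ b ∈ O, g = y * b) ∧ ∃ b ∈ O', g⁻¹ = y' * b := by
  obtain ⟨-, a, ha, b, hb, e⟩ := hy
  obtain ⟨-, a', ha', b', hb', e'⟩ := hy'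
  have hy0 : (y : F) ≠ 0 := y.ne_zero
  have hy'0 : (y' : F) ≠ 0 := y'.ne_zero
  have hab : a * b ≠ 0 := by rw [← e]; exact (y⁻¹).ne_zero
  have hab' : a' * b' ≠ 0 := by rw [← e']; exact (y'⁻¹).ne_zero
  have ha0 := left_ne_zero_of_mul hab
  have hb0 := right_ne_zero_of_mul hab
  have ha'0 := left_ne_zero_of_mul hab'
  have hb'0 := right_ne_zero_of_mul hab'
  rw [Units.val_inv_eq_inv_val] at e e'
  refine ⟨y * (a * a'), mul_ne_zero hy0 (mul_ne_zero ha0 ha'0), ⟨a * a', O.mul_mem _ _ ha ha', rfl⟩,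
    b' * b, O'.mul_mem _ _ hb' hb, ?_⟩
  have h1 : (y : F) * (a * b) = 1 := by rw [← e]; exact mul_inv_cancel₀ hy0
  have h2 : (y' : F) * (a' * b') = 1 := by rw [← e']; exact mul_inv_cancel₀ hy'0
  apply inv_eq_of_mul_eq_one_right
  calc (y : F) * (a * a') * (y' * (b' * b)) = (y * (a * b)) * (y' * (a' * b')) := by ring
    _ = 1 := by rw [h1, h2, one_mul]

lemma el {ι : Type} [DecidableEq ι] (O : ι → ValuationSubring F) (s : Finset ι) (r : ι) (y : ι → Fˣ)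
    (hr : r ∉ s) (hy : ∀ i ∈ s, (y i : F) ∈ O i) (hyr : (y r : F) ∈ O r)
    (hU : ∀ i ∈ s, y i ∈ UU (O i) (O r) ∧ y r ∈ UU (O i) (O r)) :
    ∃ e : F, (∀ i ∈ s, ∃ b ∈ O i, e = y i * b) ∧ ∃ b ∈ O r, e - 1 = y r * b := by
  have h1 : ∀ i, ∃ e : F, i ∈ s → (∃ b ∈ O i, e = y i * b) ∧ (∃ b ∈ O r, e - 1 = y r * b) ∧
      ∀ j ∈ s, e ∈ O j := by
    intro i
    by_cases hi : i ∈ s
    · obtain ⟨g, hg, ⟨b, hb, e1⟩, ⟨b', hb', e2⟩⟩ := exists_g (hU i hi).1 (hU i hi).2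
      obtain ⟨w, hw⟩ := exists_w g hg O (insert r s)
      refine ⟨1 - w, fun _ => ⟨?_, ?_, fun j hj => ?_⟩⟩
      · obtain ⟨c, hc, e3⟩ := (hw i (Finset.mem_insert_of_mem hi)).2.1
          (by rw [e1]; exact (O i).mul_mem _ _ (hy i hi) hb)
        refine ⟨-(b * c), (O i).neg_mem _ ((O i).mul_mem _ _ hb hc), ?_⟩
        rw [e1] at e3
        linear_combination -e3
      · obtain ⟨c, hc, e3⟩ := (hw r (Finset.mem_insert_self _ _)).2.2
          (by rw [e2]; exact (O r).mul_mem _ _ hyr hb')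
        refine ⟨-(b' * c), (O r).neg_mem _ ((O r).mul_mem _ _ hb' hc), ?_⟩
        rw [e2] at e3
        linear_combination -e3
      · exact sub_mem (O j).one_mem (hw j (Finset.mem_insert_of_mem hj)).1
    · exact ⟨0, fun h => absurd h hi⟩
  choose e he using h1
  refine ⟨∏ i ∈ s, e i, fun i hi => ?_, ?_⟩
  · obtain ⟨b, hb, e1⟩ := (he i hi).1
    refine ⟨b * ∏ j ∈ s.erase i, e j, (O i).mul_mem _ _ hb
      (prod_mem fun j hj => (he j (Finset.mem_of_mem_erase hj)).2.2 i hi), ?_⟩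
    rw [← Finset.mul_prod_erase s e hi, e1, mul_assoc]
  · have h2 : ∀ t ⊆ s, ∃ b ∈ O r, ∏ i ∈ t, e i - 1 = y r * b := by
      intro t
      induction t using Finset.induction_on with
      | empty => intro _; exact ⟨0, (O r).zero_mem, by simp⟩
      | insert a t ha ih =>
        intro hs
        obtain ⟨b, hb, e1⟩ := ih ((Finset.subset_insert _ _).trans hs)
        obtain ⟨c, hc, e2⟩ := (he a (hs (Finset.mem_insert_self _ _))).2.1
        refine ⟨b + c + y r * (b * c), ?_, ?_⟩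
        · exact (O r).add_mem _ _ ((O r).add_mem _ _ hb hc)
            ((O r).mul_mem _ _ hyr ((O r).mul_mem _ _ hb hc))
        · rw [Finset.prod_insert ha]
          have e3 : e a = 1 + y r * c := by linear_combination e2
          have e4 : ∏ i ∈ t, e i = 1 + y r * b := by linear_combination e1
          rw [e3, e4]
          ring
    exact h2 s subset_rfl

/-- the group `1 + n O`, `n` in the maximal ideal -/
lemma oneAdd {O : ValuationSubring F} {n : F} (hn : n ∈ O) (hn' : n⁻¹ ∉ O) {b : F} (hb : b ∈ O) :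
    1 + n * b ≠ 0 ∧ ∃ c ∈ O, (1 + n * b)⁻¹ = 1 + n * c := by
  have hn0 : n ≠ 0 := by
    rintro rfl
    exact hn' (by rw [inv_zero]; exact O.zero_mem)
  have h1 : ¬ IsUnit (⟨n, hn⟩ * ⟨b, hb⟩ : O) := fun h =>
    hn' (inv_mem_of_isUnit (isUnit_of_mul_isUnit_left h)).2
  have h2 : IsUnit (1 + ⟨n, hn⟩ * ⟨b, hb⟩ : O) := by
    by_contra h3
    have h4 := IsLocalRing.nonunits_add (a := (1 + ⟨n, hn⟩ * ⟨b, hb⟩ : O))
      (b := -(⟨n, hn⟩ * ⟨b, hb⟩ : O)) h3 (by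
        rw [mem_nonunits_iff, IsUnit.neg_iff]; exact h1)
    apply h4
    rw [add_neg_cancel_right]
    exact isUnit_one
  obtain ⟨h3, h4⟩ := inv_mem_of_isUnit h2
  have e : ((1 + ⟨n, hn⟩ * ⟨b, hb⟩ : O) : F) = 1 + n * b := by push_cast; rfl
  rw [e] at h3 h4
  refine ⟨h3, -(b * (1 + n * b)⁻¹), O.neg_mem _ (O.mul_mem _ _ hb h4), ?_⟩
  field_simp
  ring

end

theorem cl : S_CL := by
  classical
  intro F _ ι O s r n a hr hn hU
  -- the case `a ∈ O r`
  have key : ∀ a : Fˣ, (∀ i ∈ s, a ∈ UU (O i) (O r)) → (a : F) ∈ O r →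
      ∃ c : Fˣ, (∀ i ∈ s, ∃ b ∈ O i, (c : F) = 1 + n i * b) ∧ ∃ b ∈ O r, (c : F) = a * (1 + n r * b) := by
    intro a hUa har
    set y : ι → Fˣ := fun i => if i = r then n r * a else if (a : F) ∈ O i then n i else n i * a⁻¹ with hy
    have hyr : y r = n r * a := by simp [hy]
    have hyi : ∀ i ∈ s, y i = if (a : F) ∈ O i then n i else n i * a⁻¹ := fun i hi => by
      have : i ≠ r := fun h => hr (h ▸ hi)
      simp [hy, this]
    obtain ⟨e, h1, h2⟩ := el O s r y hr (fun i hi => by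
        rw [hyi i hi]
        split_ifs with h
        · exact (hn i (Or.inr hi)).1
        · rw [Units.val_mul, Units.val_inv_eq_inv_val]
          exact (O i).mul_mem _ _ (hn i (Or.inr hi)).1 (((O i).mem_or_inv_mem (a : F)).resolve_left h))
      (by rw [hyr, Units.val_mul]; exact (O r).mul_mem _ _ (hn r (Or.inl rfl)).1 har)
      (fun i hi => by
        refine ⟨?_, ?_⟩
        · rw [hyi i hi]
          split_ifs with h
          · exact (hU i hi).1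
          · exact mul_mem (hU i hi).1 (inv_mem (hUa i hi))
        · rw [hyr]
          exact mul_mem (hU i hi).2.1 (hUa i hi))
    obtain ⟨b, hb, e2⟩ := h2
    rw [hyr, Units.val_mul] at e2
    have hb' : ((a : F) - 1) * b ∈ O r := (O r).mul_mem _ _ (sub_mem har (O r).one_mem) hb
    have hc : 1 + ((a : F) - 1) * e = a * (1 + n r * ((a - 1) * b)) := by
      linear_combination ((a : F) - 1) * e2
    have hc0 : 1 + ((a : F) - 1) * e ≠ 0 := by
      rw [hc]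
      exact mul_ne_zero a.ne_zero (oneAdd (hn r (Or.inl rfl)).1 (hn r (Or.inl rfl)).2 hb').1
    refine ⟨Units.mk0 _ hc0, fun i hi => ?_, _, hb', hc⟩
    rw [Units.val_mk0]
    obtain ⟨d, hd, e3⟩ := h1 i hi
    rw [hyi i hi] at e3
    split_ifs at e3 with h
    · refine ⟨((a : F) - 1) * d, (O i).mul_mem _ _ (sub_mem h (O i).one_mem) hd, ?_⟩
      rw [e3]; ring
    · have h' := ((O i).mem_or_inv_mem (a : F)).resolve_left h
      refine ⟨(1 - (a : F)⁻¹) * d, (O i).mul_mem _ _ (sub_mem (O i).one_mem h') hd, ?_⟩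
      rw [e3, Units.val_mul, Units.val_inv_eq_inv_val]
      have := a.ne_zero
      field_simp
  by_cases har : (a : F) ∈ O r
  · exact key a (fun i hi => (hU i hi).2.2) har
  · have h' := ((O r).mem_or_inv_mem (a : F)).resolve_left har
    obtain ⟨c, h1, b, hb, h2⟩ := key a⁻¹ (fun i hi => inv_mem (hU i hi).2.2)
      (by rw [Units.val_inv_eq_inv_val]; exact h')
    refine ⟨c⁻¹, fun i hi => ?_, ?_⟩
    · obtain ⟨d, hd, e⟩ := h1 i hi
      obtain ⟨d', hd', e'⟩ := (oneAdd (hn i (Or.inr hi)).1 (hn i (Or.inr hi)).2 hd).2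
      exact ⟨d', hd', by rw [Units.val_inv_eq_inv_val, e, e']⟩
    · obtain ⟨d', hd', e'⟩ := (oneAdd (hn r (Or.inl rfl)).1 (hn r (Or.inl rfl)).2 hb).2
      refine ⟨d', hd', ?_⟩
      rw [Units.val_inv_eq_inv_val, h2, mul_inv, e', Units.val_inv_eq_inv_val, inv_inv]

theorem ap : S_AP := by
  classical
  intro F _ ι O s n a hn hU
  have h1 : ∀ r, ∃ c : Fˣ, r ∈ s → (∀ i ∈ s.erase r, ∃ b ∈ O i, (c : F) = 1 + n i * b) ∧
      ∃ b ∈ O r, (c : F) = a r * (1 + n r * b) := by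
    intro r
    by_cases hr : r ∈ s
    · obtain ⟨c, hc⟩ := cl F ι O (s.erase r) r n (a r) (Finset.notMem_erase _ _)
        (fun i hi => by
          rcases hi with rfl | hi
          · exact hn i hr
          · exact hn i (Finset.mem_of_mem_erase hi))
        (fun i hi => by
          have h2 := hU i (Finset.mem_of_mem_erase hi) r hr (Finset.ne_of_mem_erase hi)
          have h3 := hU r hr i (Finset.mem_of_mem_erase hi) (Finset.ne_of_mem_erase hi).symm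
          exact ⟨h2.1, UU_symm h3.1, UU_symm h3.2⟩)
      exact ⟨c, fun _ => hc⟩
    · exact ⟨1, fun h => absurd h hr⟩
  choose c hc using h1
  refine ⟨∏ r ∈ s, c r, fun i hi => ?_⟩
  have hni := (hn i hi).1
  have h2 : ∀ t ⊆ s.erase i, ∃ b ∈ O i, ((∏ r ∈ t, c r : Fˣ) : F) = 1 + n i * b := by
    intro t
    induction t using Finset.induction_on with
    | empty => intro _; exact ⟨0, (O i).zero_mem, by simp⟩
    | insert r t hr ih =>
      intro hs
      obtain ⟨b, hb, e1⟩ := ih ((Finset.subset_insert _ _).trans hs)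
      have hr' := hs (Finset.mem_insert_self _ _)
      obtain ⟨d, hd, e2⟩ := (hc r (Finset.mem_of_mem_erase hr')).1 i
        (Finset.mem_erase.2 ⟨(Finset.ne_of_mem_erase hr').symm, hi⟩)
      refine ⟨b + d + n i * (b * d), ?_, ?_⟩
      · exact (O i).add_mem _ _ ((O i).add_mem _ _ hb hd)
          ((O i).mul_mem _ _ hni ((O i).mul_mem _ _ hb hd))
      · rw [Finset.prod_insert hr, Units.val_mul, e1, e2]
        ring
  obtain ⟨b, hb, e1⟩ := h2 _ subset_rfl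
  obtain ⟨d, hd, e2⟩ := (hc i hi).2
  refine ⟨b + d + n i * (b * d), ?_, ?_⟩
  · exact (O i).add_mem _ _ ((O i).add_mem _ _ hb hd)
      ((O i).mul_mem _ _ hni ((O i).mul_mem _ _ hb hd))
  · rw [← Finset.mul_prod_erase s c hi, Units.val_mul, e1, e2]
    ring

end Pool.Agent.P8H55.EC2
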