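import Pool.Agent.P8H48.EC.Lin
import Pool.Agent.P8H47.EC2.Stm

/-! # Project EC2, package LC: the extremal case -/

set_option autoImplicit false

open Module Submodule

namespace Pool.Agent.P8H55.EC2

open Pool.Agent.N908.FR (Forms)
open Pool.Agent.P8H48.EC (SS mem_SS skew bound finrank_sup exists_not_mem)

variable {k V : Type*} [Field k] [AddCommGroup V] [Module k V] {E : V → V → Prop}
  [FiniteDimensional k V]

omit [AddCommGroup V] [Module k V] [FiniteDimensional k V] in
theorem top_of {W : Type*} [AddCommMonoid W] [Module k W] [Module.Finite k W] (R : Submodule k W)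
    (h : finrank k W ≤ finrank k R) : R = ⊤ := by
  let _ : AddCommGroup W := Module.addCommMonoidToAddCommGroup k
  exact Submodule.eq_top_of_finrank_eq (le_antisymm (Submodule.finrank_le R) h)

omit [AddCommGroup V] [Module k V] [FiniteDimensional k V] in
theorem eq_of {W : Type*} [AddCommMonoid W] [Module k W] [Module.Finite k W] {A B : Submodule k W}
    (h : A ≤ B) (h' : finrank k B ≤ finrank k A) : A = B := by
  let _ : AddCommGroup W := Module.addCommMonoidToAddCommGroup k
  exact Submodule.eq_of_le_of_finrank_le h h'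

theorem extremal (T : Submodule k V) (h : ∀ t ∈ T, ∀ x : V, ∃ t' ∈ T, E (x + t') t)
    (hd : finrank k T * (finrank k T - 1) / 2 +
      (finrank k V - finrank k T) * (finrank k V - finrank k T - 1) / 2 ≤ finrank k (Forms k E)) :
    (∀ α ∈ Forms k (V := T) (fun _ _ => False), ∃ β ∈ Forms k E, ∀ s t : T, β s t = α s t) ∧
      (∀ β : V →ₗ[k] V →ₗ[k] k, (∀ x, β x x = 0) → (∀ t ∈ T, ∀ x, β t x = 0) → β ∈ Forms k E) := by
  let φ : Forms k E →ₗ[k] Forms k (V := T) (fun _ _ => False) :=
    { toFun := fun β => ⟨β.1.compl₁₂ T.subtype T.subtype, fun x => β.2.1 x, fun x y h => h.elim⟩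
      map_add' := fun β γ => rfl
      map_smul' := fun c β => rfl }
  have h1 : finrank k (LinearMap.range φ) + finrank k (LinearMap.ker φ) = finrank k (Forms k E) := by
    let _ : AddCommGroup (Forms k E) := Module.addCommMonoidToAddCommGroup k
    let _ : AddCommGroup (Forms k (V := T) (fun _ _ => False)) := Module.addCommMonoidToAddCommGroup k
    exact LinearMap.finrank_range_add_finrank_ker (K := k) (V := ↥(Forms k E))
      (V₂ := ↥(Forms k (V := T) (fun _ _ => False))) φ
  have h2 : finrank k (LinearMap.ker φ) ≤ finrank k (SS E T) := by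
    let ψ : LinearMap.ker φ →ₗ[k] SS E T :=
      { toFun := fun β => ⟨β.1.1, by
          refine mem_SS.2 ⟨β.1.2, fun t ht x => ?_⟩
          obtain ⟨t', ht', hE⟩ := h t ht x
          have h3 := β.1.2.2 _ _ hE
          have h4 : β.1.1 t' t = 0 := by
            have h5 : φ β.1 = 0 := β.2
            have h6 := congrArg Subtype.val h5
            have h7 := LinearMap.congr_fun (LinearMap.congr_fun h6 ⟨t', ht'⟩) ⟨t, ht⟩
            exact h7
          rw [map_add, LinearMap.add_apply, h4, add_zero] at h3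
          rw [skew β.1.2.1 x t, h3, neg_zero]⟩
        map_add' := fun β γ => rfl
        map_smul' := fun c β => rfl }
    refine LinearMap.finrank_le_finrank_of_injective (f := ψ) fun β γ h => ?_
    have h' := congrArg Subtype.val h
    exact Subtype.ext (Subtype.ext h')
  have hTV := Submodule.finrank_le T
  have h3 := bound (E := fun _ _ : V => False) (finrank k V - finrank k T) T (by omega)
  have h33 : SS E T ≤ SS (fun _ _ : V => False) T := fun β hβ =>
    mem_SS.2 ⟨⟨(mem_SS.1 hβ).1.1, fun _ _ h => h.elim⟩, (mem_SS.1 hβ).2⟩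
  have h34 := Submodule.finrank_mono h33
  have h6 := bound (E := fun _ _ : T => False) (finrank k T) (⊥ : Submodule k T)
    (by rw [finrank_bot]; omega)
  have hF : SS (fun _ _ : T => False) (⊥ : Submodule k T) = Forms k (V := T) (fun _ _ => False) := by
    ext β
    rw [mem_SS]
    constructor
    · exact fun h => h.1
    · refine fun h => ⟨h, fun t ht x => ?_⟩
      rw [Submodule.mem_bot] at ht
      rw [ht, map_zero, LinearMap.zero_apply]
  rw [hF] at h6
  have h5 := Submodule.finrank_le (LinearMap.range φ)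
  constructor
  · intro α hα
    have htop : LinearMap.range φ = ⊤ := top_of _ (by omega)
    have h7 : (⟨α, hα⟩ : Forms k (V := T) (fun _ _ => False)) ∈ LinearMap.range φ := by
      rw [htop]; exact Submodule.mem_top
    obtain ⟨β, hβ⟩ := h7
    refine ⟨β.1, β.2, fun s t => ?_⟩
    have h8 := congrArg Subtype.val hβ
    exact LinearMap.congr_fun (LinearMap.congr_fun h8 s) t
  · intro β hβ hT
    have heq : SS E T = SS (fun _ _ : V => False) T := eq_of h33 (by omega)
    have h7 : β ∈ SS (fun _ _ : V => False) T := mem_SS.2 ⟨⟨hβ, fun _ _ h => h.elim⟩, hT⟩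
    rw [← heq] at h7
    exact (mem_SS.1 h7).1

theorem sup_eq {T : Submodule k V} {a x : V} (hx : x ∈ T ⊔ span k {a}) (ha : a ∉ T)
    (hxT : x ∉ T) : T ⊔ span k {x} = T ⊔ span k {a} := by
  refine Submodule.eq_of_le_of_finrank_le
    (sup_le le_sup_left ((Submodule.span_singleton_le_iff_mem _ _).2 hx)) ?_
  rw [finrank_sup ha, finrank_sup hxT]

theorem lc0 (D : Submodule k V) (h : ∀ t ∈ D, ∀ x : V, ∃ t' ∈ D, E (x + t') t)
    (h2 : 2 ≤ finrank k D)
    (hd : finrank k D * (finrank k D - 1) / 2 +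
      (finrank k V - finrank k D) * (finrank k V - finrank k D - 1) / 2 ≤ finrank k (Forms k E)) :
    ∃ T : Submodule k V, finrank k T + 2 ≤ finrank k V ∧ ¬ D ≤ T ∧
      ∃ P : Set (Submodule k V), (∀ K ∈ P, T ≤ K) ∧ (∀ K ∈ P, K ≠ ⊤) ∧ (∀ x, ∃ K ∈ P, x ∈ K) ∧
        (∀ K ∈ P, ∀ K' ∈ P, K ≠ K' → K ⊓ K' = T) ∧
        ∀ K ∈ P, ∀ x y : V, E x y → x ∉ T → x ∈ K → y ∈ K := by
  obtain ⟨hA, hB⟩ := extremal D h hd
  set b := Module.finBasis k D with hb
  set f : D →ₗ[k] k := b.coord ⟨0, by omega⟩ with hf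
  set g : D →ₗ[k] k := b.coord ⟨1, by omega⟩ with hg
  set u : D := b ⟨0, by omega⟩ with hu
  set v : D := b ⟨1, by omega⟩ with hv
  have hfu : f u = 1 := by simp [hf, hu]
  have hfv : f v = 0 := by simp [hf, hv]
  have hgu : g u = 0 := by simp [hg, hu]
  have hgv : g v = 1 := by simp [hg, hv]
  clear_value f g u v
  obtain ⟨β, hβ, hα⟩ := hA (f.smulRight g - g.smulRight f)
    ⟨fun x => by simp [mul_comm], fun _ _ h => h.elim⟩
  have hα' : ∀ s t : D, β s t = f s * g t - g s * f t := fun s t => by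
    rw [hα]; simp
  clear hα
  set β' : V →ₗ[k] V →ₗ[k] k := (β u).smulRight (β v) - (β v).smulRight (β u) with hβ'
  have hβ'x : ∀ x y, β' x y = β u x * β v y - β v x * β u y := fun x y => by simp [hβ']
  have hmem : β' ∈ Forms k E := by
    have h3 : β' - β ∈ Forms k E := by
      refine hB _ (fun x => ?_) (fun t ht x => ?_)
      · rw [LinearMap.sub_apply, LinearMap.sub_apply, hβ'x, hβ.1 x]; ring
      · have h4 : β (t - f ⟨t, ht⟩ • (u : V) - g ⟨t, ht⟩ • (v : V)) x = 0 := by
          set n : D := ⟨t, ht⟩ - f ⟨t, ht⟩ • u - g ⟨t, ht⟩ • v with hn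
          have hnv : (n : V) = t - f ⟨t, ht⟩ • (u : V) - g ⟨t, ht⟩ • (v : V) := rfl
          have hfn : f n = 0 := by rw [hn]; simp [hfu, hfv]
          have hgn : g n = 0 := by rw [hn]; simp [hgu, hgv]
          rw [← hnv]
          obtain ⟨t', ht', hE⟩ := h n n.2 x
          have h5 := hβ.2 _ _ hE
          have h6 : β t' n = 0 := by
            have := hα' ⟨t', ht'⟩ n
            rw [hfn, hgn] at this
            simpa using this
          rw [map_add, LinearMap.add_apply, h6, add_zero] at h5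
          rw [skew hβ.1 x n, h5, neg_zero]
        have h7 := hα' u ⟨t, ht⟩
        have h8 := hα' v ⟨t, ht⟩
        rw [hfu, hgu] at h7
        rw [hfv, hgv] at h8
        simp only [map_sub, map_smul, LinearMap.sub_apply, LinearMap.smul_apply, smul_eq_mul] at h4
        rw [LinearMap.sub_apply, LinearMap.sub_apply, hβ'x]
        simp only at h7 h8
        rw [h7, h8]
        linear_combination -h4
    have h9 := add_mem hβ h3
    have e9 : β + (β' - β) = β' := by
      refine LinearMap.ext fun x => LinearMap.ext fun y => ?_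
      simp only [LinearMap.add_apply, LinearMap.sub_apply]
      ring
    exact e9 ▸ h9
  have hvu : β v u = -1 := by rw [hα', hfv, hgv, hfu]; ring
  have huv : β u v = 1 := by rw [hα', hfu, hgu, hgv]; ring
  set L : V →ₗ[k] k × k := (β u).prod (β v) with hL
  have hLx : ∀ x, L x = (β u x, β v x) := fun x => rfl
  have hsurj : LinearMap.range L = ⊤ := by
    rw [LinearMap.range_eq_top]
    rintro ⟨p, q⟩
    refine ⟨p • (v : V) - q • (u : V), ?_⟩
    rw [hLx]
    simp only [map_sub, map_smul, smul_eq_mul, hβ.1, huv, hvu]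
    ext <;> simp
  set T := LinearMap.ker L with hT
  have hTx : ∀ x, x ∈ T ↔ β u x = 0 ∧ β v x = 0 := fun x => by
    rw [hT, LinearMap.mem_ker, hLx, Prod.mk_eq_zero]
  have hdim : finrank k T + 2 = finrank k V := by
    have h3 : finrank k (LinearMap.range L) + finrank k T = finrank k V :=
      LinearMap.finrank_range_add_finrank_ker L
    have h4 : finrank k (LinearMap.range L) = 2 := by
      rw [hsurj, finrank_top, Module.finrank_prod, Module.finrank_self]
    omega
  have huT : (u : V) ∉ T := fun h => by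
    have h3 := ((hTx _).1 h).2
    rw [hvu] at h3
    exact one_ne_zero (neg_eq_zero.1 h3)
  refine ⟨T, hdim.le, fun h => huT (h u.2), {K | ∃ a, a ∉ T ∧ K = T ⊔ span k {a}}, ?_, ?_, ?_, ?_, ?_⟩
  · rintro _ ⟨a, -, rfl⟩
    exact le_sup_left
  · rintro _ ⟨a, ha, rfl⟩ htop
    have h1 := finrank_sup ha
    rw [htop, finrank_top] at h1
    omega
  · intro x
    by_cases hx : x ∈ T
    · exact ⟨_, ⟨u, huT, rfl⟩, le_sup_left (a := T) hx⟩
    · exact ⟨_, ⟨x, hx, rfl⟩, le_sup_right (a := T) (Submodule.mem_span_singleton_self x)⟩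
  · rintro _ ⟨a, ha, rfl⟩ _ ⟨c, hc, rfl⟩ hne
    refine le_antisymm ?_ (le_inf le_sup_left le_sup_left)
    rintro x ⟨hxa, hxc⟩
    by_contra hx
    apply hne
    rw [← sup_eq hxa ha hx, ← sup_eq hxc hc hx]
  · rintro _ ⟨a, ha, rfl⟩ x y hE hx hxa
    rw [← sup_eq hxa ha hx]
    have h3 := hmem.2 x y hE
    rw [hβ'x] at h3
    have h4 : ∃ c : k, β u y = c * β u x ∧ β v y = c * β v x := by
      by_cases hp : β u x = 0
      · have hq : β v x ≠ 0 := fun hq => hx ((hTx x).2 ⟨hp, hq⟩)
        refine ⟨β v y / β v x, ?_, by field_simp⟩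
        rw [hp, zero_mul, zero_sub, neg_eq_zero] at h3
        rw [hp, mul_zero]
        exact (mul_eq_zero.1 h3).resolve_left hq
      · refine ⟨β u y / β u x, by field_simp, ?_⟩
        field_simp
        linear_combination h3
    obtain ⟨c, h5, h6⟩ := h4
    rw [Submodule.mem_sup]
    refine ⟨y - c • x, (hTx _).2 ⟨?_, ?_⟩, c • x, Submodule.mem_span_singleton.2 ⟨c, rfl⟩,
      sub_add_cancel _ _⟩
    · rw [map_sub, map_smul, h5, smul_eq_mul, sub_self]
    · rw [map_sub, map_smul, h6, smul_eq_mul, sub_self]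

theorem lc : Pool.Agent.P8H47.EC2.S_LC := fun _ _ _ _ _ _ _ D h h2 hd => lc0 D h h2 hd

end Pool.Agent.P8H55.EC2
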